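import Mathlib
import Pool.Agent.Helper536.Kb.Khol

/-!
# Disjoint balls with non-polynomially convex union, in every large dimension
-/

set_option autoImplicit false

open Finset

namespace Pool.Agent.Y13.KB

open Pool.Agent.Helper536.KB Pool.Agent.Helper536.KB.Khol

theorem par_of (M : ℕ) (hM0 : 2 ^ 40 + 13 ≤ M) : ∃ Q : Par, Q.M = M := by
  refine ⟨{ M := M, J := 2 ^ 40 + 1, p := Kfi.pp M, hJ := by omega, hM := by omega, p0 := by simp [Kfi.pp], p1 := ?_, pmono := ?_, pstep := ?_, pnn := ?_, ple := ?_, pone := ?_, pK := ?_ }, rfl⟩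
  · simp only [Kfi.pp]
    rw [if_neg (by norm_num), if_neg (by omega)]
    norm_num
  · intro i h1 h2
    simp only [Kfi.pp]
    rw [if_neg (by omega), if_neg (by omega), if_neg (by omega), if_neg (by omega)]
    apply min_le_min le_rfl
    push_cast
    have : ((i:ℝ) - 1) / 2 ^ 40 ≤ ((i:ℝ) + 1 - 1) / 2 ^ 40 := by
      apply div_le_div_of_nonneg_right _ (by positivity)
      linarith
    linarith
  · intro i h1 h2
    simp only [Kfi.pp]
    rw [if_neg (by omega), if_neg (by omega), if_neg (by omega), if_neg (by omega)]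
    push_cast
    have : ((i:ℝ) + 1 - 1) / 2 ^ 40 = ((i:ℝ) - 1) / 2 ^ 40 + 1 / 2 ^ 40 := by ring
    rw [this]
    have h0 : (0:ℝ) ≤ 1 / 2 ^ 40 := by positivity
    rcases min_cases (1:ℝ) (13 / 10240 + ((i:ℝ) - 1) / 2 ^ 40) with ⟨h, h'⟩ | ⟨h, h'⟩
    · rw [h]; exact (min_le_left _ _).trans (by linarith)
    · rw [h]; exact (min_le_right _ _).trans (by linarith)
  · intro i
    simp only [Kfi.pp]
    split_ifs with h1 h2
    · norm_num
    · exact le_rfl
    · have : (1:ℝ) ≤ i := by exact_mod_cast Nat.one_le_iff_ne_zero.mpr h1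
      have h3 : 0 ≤ ((i:ℝ) - 1) / 2 ^ 40 := div_nonneg (by linarith) (by positivity)
      exact le_min (by norm_num) (by linarith)
  · intro i
    simp only [Kfi.pp]
    split_ifs with h1 h2
    · norm_num
    · norm_num
    · exact min_le_left _ _
  · intro i h1 h2
    simp only [Kfi.pp]
    rw [if_neg (by omega), if_neg (by omega)]
    apply min_eq_left
    have h3 : ((2:ℝ) ^ 40 + 1) ≤ i := by exact_mod_cast h1
    have h4 : 1 ≤ ((i:ℝ) - 1) / 2 ^ 40 := by
      rw [le_div_iff₀ (by positivity)]; linarith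
    linarith
  · simp only [Kfi.pp]
    rw [if_neg (by omega), if_pos (by omega)]

/-- Finitely many pairwise disjoint closed balls of radius `1` in `ℂⁿ`, and a further closed ball
of radius `ρ > 0` disjoint from all of them, such that every function which is complex
differentiable at all points of the closed ball of radius `Λ` about the origin (in particular every
polynomial) attains on the union of the balls a modulus at least as large as on the further
ball. -/
def Bad (n : ℕ) : Prop :=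
  ∃ (k : ℕ) (c : Fin k → EuclideanSpace ℂ (Fin n)) (q : EuclideanSpace ℂ (Fin n)) (ρ Λ : ℝ),
    0 < ρ ∧
    (∀ i j, i ≠ j → Disjoint (Metric.closedBall (c i) 1) (Metric.closedBall (c j) 1)) ∧
    (∀ i, Disjoint (Metric.closedBall q ρ) (Metric.closedBall (c i) 1)) ∧
    ∀ f : EuclideanSpace ℂ (Fin n) → ℂ, (∀ x, ‖x‖ ≤ Λ → DifferentiableAt ℂ f x) →
      ∃ i, ∃ y ∈ Metric.closedBall (c i) 1, ∀ z ∈ Metric.closedBall q ρ, ‖f z‖ ≤ ‖f y‖

theorem bad_Q (Q : Par) : Bad (Q.M + 5) := by
  have hr0 : (0:ℝ) ≤ 31/25600 := by norm_num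
  let S : Finset (Fin (Q.M + 5) → ℂ) := (fin_cen Q).toFinset
  let e := S.equivFin
  let c : Fin S.card → (Fin (Q.M + 5) → ℂ) := fun i => (e.symm i : Fin (Q.M + 5) → ℂ)
  have hcmem : ∀ i, c i ∈ Q.Cen := fun i => (Set.Finite.mem_toFinset _).mp (e.symm i).2
  have hcinj : ∀ i j, i ≠ j → c i ≠ c j := by
    intro i j hij h
    exact hij (e.symm.injective (Subtype.ext h))
  have hcsurj : ∀ x ∈ Q.Cen, ∃ i, c i = x := by
    intro x hx
    refine ⟨e ⟨x, (Set.Finite.mem_toFinset _).mpr hx⟩, ?_⟩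
    simp [c]
  have hz0 : nrm (0 : Fin (Q.M + 5) → ℂ) ≤ 0 := by
    rw [nrm_le_iff _ _ le_rfl]
    simp
  -- the point outside
  set q0 : Fin (Q.M + 5) → ℂ := Q.FA (Q.rad (9/8) : ℂ) with hq0
  have hout : ∀ i, 31 / 25600 < nrm (q0 - c i) := fun i => zout Q (c i) (hcmem i)
  obtain ⟨ρ, hρ0, hρ1, hρ2⟩ : ∃ ρ : ℝ, 0 < ρ ∧ ρ ≤ 1 / 2 ^ 20 ∧
      ∀ i, 31 / 25600 + ρ < nrm (q0 - c i) := by
    have hne : (insert (1 / 2 ^ 20 : ℝ) (Finset.univ.image fun i => (nrm (q0 - c i) - 31 / 25600) / 2)).Nonempty :=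
      Finset.insert_nonempty _ _
    refine ⟨(insert (1 / 2 ^ 20 : ℝ) (Finset.univ.image fun i => (nrm (q0 - c i) - 31 / 25600) / 2)).min' hne, ?_, ?_, ?_⟩
    · rw [Finset.lt_min'_iff]
      intro y hy
      rw [Finset.mem_insert, Finset.mem_image] at hy
      rcases hy with rfl | ⟨i, _, rfl⟩
      · norm_num
      · have := hout i
        linarith
    · exact Finset.min'_le _ _ (Finset.mem_insert_self _ _)
    · intro i
      have h1 : (insert (1 / 2 ^ 20 : ℝ) (Finset.univ.image fun i => (nrm (q0 - c i) - 31 / 25600) / 2)).min' hne ≤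
          (nrm (q0 - c i) - 31 / 25600) / 2 :=
        Finset.min'_le _ _ (Finset.mem_insert_of_mem (Finset.mem_image_of_mem _ (Finset.mem_univ i)))
      have := hout i
      linarith
  -- scaling
  set s : ℝ := 25600 / 31 with hs
  have hs0 : 0 < s := by norm_num [hs]
  have hs1 : s * (31 / 25600) = 1 := by norm_num [hs]
  have hnrm : ∀ x y : Fin (Q.M + 5) → ℂ,
      ‖s • (WithLp.toLp 2 x : EuclideanSpace ℂ (Fin (Q.M + 5))) -
        s • (WithLp.toLp 2 y : EuclideanSpace ℂ (Fin (Q.M + 5)))‖ = s * nrm (x - y) := by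
    intro x y
    rw [← smul_sub, norm_smul, Real.norm_of_nonneg hs0.le, ← WithLp.toLp_sub, nrm_eq_toLp]
  refine ⟨S.card, fun i => s • WithLp.toLp 2 (c i), s • WithLp.toLp 2 q0, s * ρ,
    s * (2 * Real.sqrt (Q.M + 5)), by positivity, ?_, ?_, ?_⟩
  · intro i j hij
    apply Metric.closedBall_disjoint_closedBall
    have h3 := sep Q (c i) (hcmem i) (c j) (hcmem j) (hcinj i j hij)
    rw [dist_eq_norm, hnrm]
    have h4 : s * (31 / 12800) < s * nrm (c i - c j) := mul_lt_mul_of_pos_left h3 hs0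
    have h5 : s * (31 / 12800) = 1 + 1 := by norm_num [hs]
    rw [h5] at h4
    exact h4
  · intro i
    apply Metric.closedBall_disjoint_closedBall
    rw [dist_eq_norm, hnrm]
    have h4 : s * (31 / 25600 + ρ) < s * nrm (q0 - c i) := mul_lt_mul_of_pos_left (hρ2 i) hs0
    rw [mul_add, hs1] at h4
    linarith
  · intro f hf
    let P : (Fin (Q.M + 5) → ℂ) → ℂ := fun x => f (s • WithLp.toLp 2 x)
    have hP : ∀ x : Fin (Q.M + 5) → ℂ, (∀ i, ‖x i‖ ≤ 2) → DifferentiableAt ℂ P x := by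
      intro x hx
      have h1 : ‖(WithLp.toLp 2 x : EuclideanSpace ℂ (Fin (Q.M + 5)))‖ ≤ 2 * Real.sqrt (Q.M + 5) := by
        rw [EuclideanSpace.norm_eq, Real.sqrt_le_left (by positivity)]
        rw [mul_pow, Real.sq_sqrt (by positivity)]
        calc ∑ i, ‖(WithLp.toLp 2 x : EuclideanSpace ℂ (Fin (Q.M + 5))) i‖ ^ 2
            ≤ ∑ _i : Fin (Q.M + 5), (2:ℝ) ^ 2 := by
              apply Finset.sum_le_sum
              intro i _
              exact pow_le_pow_left₀ (norm_nonneg _) (hx i) 2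
          _ = 2 ^ 2 * ((Q.M : ℝ) + 5) := by
              rw [Finset.sum_const, Finset.card_univ, Fintype.card_fin, nsmul_eq_mul]
              push_cast
              ring
      have h1' : ‖s • (WithLp.toLp 2 x : EuclideanSpace ℂ (Fin (Q.M + 5)))‖ ≤
          s * (2 * Real.sqrt (Q.M + 5)) := by
        rw [norm_smul, Real.norm_of_nonneg hs0.le]
        exact mul_le_mul_of_nonneg_left h1 hs0.le
      have h2 : DifferentiableAt ℂ (fun x : Fin (Q.M + 5) → ℂ =>
          (WithLp.toLp 2 x : EuclideanSpace ℂ (Fin (Q.M + 5)))) x :=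
        (PiLp.continuousLinearEquiv 2 ℂ (fun _ : Fin (Q.M + 5) => ℂ)).symm.differentiableAt
      have h3 : DifferentiableAt ℂ (fun x : Fin (Q.M + 5) → ℂ =>
          s • (WithLp.toLp 2 x : EuclideanSpace ℂ (Fin (Q.M + 5)))) x := h2.const_smul s
      exact DifferentiableAt.comp x (hf _ h1') h3
    -- the union of the balls is compact
    let B : Fin S.card → Set (Fin (Q.M + 5) → ℂ) := fun i => {x | nrm (x - c i) ≤ 31/25600}
    have hcn : Continuous (fun x : Fin (Q.M + 5) → ℂ => nrm x) := by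
      unfold nrm
      fun_prop
    have hBc : ∀ i, IsCompact (B i) := by
      intro i
      refine (isCompact_closedBall (c i) (31/25600 : ℝ)).of_isClosed_subset ?_ ?_
      · exact isClosed_le (hcn.comp (by fun_prop)) continuous_const
      · intro x h1
        rw [Metric.mem_closedBall, dist_pi_le_iff hr0]
        intro m
        rw [dist_eq_norm]
        exact (norm_le_nrm (x - c i) m).trans h1
    have hX : IsCompact (⋃ i, B i) := isCompact_iUnion hBc
    have hXmem : ∀ x, Q.InX x → x ∈ ⋃ i, B i := by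
      rintro x ⟨c', hc', hx⟩
      obtain ⟨i, rfl⟩ := hcsurj c' hc'
      exact Set.mem_iUnion.mpr ⟨i, hx⟩
    have hmemX : ∀ x, x ∈ ⋃ i, B i → Q.InX x := by
      intro x hx
      obtain ⟨i, hi⟩ := Set.mem_iUnion.mp hx
      exact ⟨c i, hcmem i, hi⟩
    have hne : (⋃ i, B i).Nonempty := by
      refine ⟨rot 0 (Q.C0 1), hXmem _ ⟨rot 0 (Q.C0 1), ⟨0, 1, one_pow _, Or.inl rfl⟩, ?_⟩⟩
      rw [sub_self]
      exact hz0.trans hr0
    obtain ⟨x0, hx0, hmax⟩ := hX.exists_isMaxOn hne (f := fun x => ‖P x‖)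
      (fun x hx => ((hP x (InX_bd Q x (hmemX x hx))).continuousAt.norm).continuousWithinAt)
    obtain ⟨i0, hi0⟩ := Set.mem_iUnion.mp hx0
    refine ⟨i0, s • WithLp.toLp 2 x0, ?_, ?_⟩
    · rw [Metric.mem_closedBall, dist_eq_norm, hnrm, ← hs1]
      exact mul_le_mul_of_nonneg_left hi0 hs0.le
    · intro z hz
      rw [Metric.mem_closedBall, dist_eq_norm] at hz
      set x : Fin (Q.M + 5) → ℂ := fun i => s⁻¹ • z i with hx
      have hzx : z = s • (WithLp.toLp 2 x : EuclideanSpace ℂ (Fin (Q.M + 5))) := by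
        ext i
        simp only [PiLp.smul_apply, hx]
        rw [smul_inv_smul₀ hs0.ne']
      rw [hzx, hnrm] at hz
      have hη : nrm (x - q0) ≤ 1 / 2 ^ 20 := (le_of_mul_le_mul_left hz hs0).trans hρ1
      have hT : Q.InT x := by
        refine ⟨0, (Q.rad (9/8) : ℂ), x - q0, hη, Or.inl ⟨?_, ?_⟩⟩
        · rw [Complex.norm_real, Real.norm_of_nonneg]
          exact (Real.exp_pos _).le
        · funext i
          simp [rot, hq0]
      have h2 := hull_hol Q P ‖P x0‖ (norm_nonneg _) hP (fun x hx => hmax (hXmem x hx)) _ hT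
      rw [hzx]
      exact h2

/-- In every dimension `n ≥ 2^40 + 18`. -/
theorem bad_all (n : ℕ) (hn : 2 ^ 40 + 18 ≤ n) : Bad n := by
  obtain ⟨M, rfl⟩ : ∃ M, n = M + 5 := ⟨n - 5, by omega⟩
  obtain ⟨Q, hQ⟩ := par_of M (by omega)
  have := bad_Q Q
  rwa [hQ] at this

end Pool.Agent.Y13.KB
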